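import Pool.Agent.W323.SC.Stm

set_option autoImplicit false
open Finset
open scoped Classical

namespace Pool.Agent.W570.SC

open Pool.Agent.W323.SC

theorem inj_le {β γ : Type} (s : Finset β) (t : Finset γ) (f : β → ℝ) (g : γ → ℝ) (i : β → γ)
    (hi : ∀ x ∈ s, i x ∈ t) (hinj : ∀ x ∈ s, ∀ y ∈ s, i x = i y → x = y)
    (hfg : ∀ x ∈ s, f x = g (i x)) (hg : ∀ x ∈ t, 0 ≤ g x) : ∑ x ∈ s, f x ≤ ∑ x ∈ t, g x := by
  rw [Finset.sum_congr rfl hfg]
  have h1 : ∑ x ∈ s, g (i x) = ∑ x ∈ s.image i, g x := by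
    rw [Finset.sum_image]
    intro x hx y hy h
    exact hinj x hx y hy h
  rw [h1]
  apply Finset.sum_le_sum_of_subset_of_nonneg
  · intro x hx
    obtain ⟨z, hz, rfl⟩ := Finset.mem_image.1 hx
    exact hi z hz
  · intro x hx _
    exact hg x hx

theorem sc : S_C := by
  intro α ι κ _ a b hI y hy
  have hw : ∀ S : Finset α, 0 ≤ w y S := fun S => Finset.prod_nonneg (fun p _ => hy p)
  set A : Finset (Finset α) := (univ : Finset (Finset α)).filter (fun R => 2 ≤ R.card ∧ cst a R) with hA
  set B : Finset α → Finset (Finset α) := fun R =>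
    (univ : Finset (Finset α)).filter (fun C => 2 ≤ C.card ∧ cst b C ∧ 5 ≤ R.card + C.card) with hB
  set T : Finset (Σ _ : Finset α, Finset α) := A.sigma B with hT
  have hR : ∑ R ∈ A, ∑ C ∈ B R, w y R * w y C = ∑ x ∈ T, w y x.1 * w y x.2 :=
    Finset.sum_sigma' A B (fun R C => w y R * w y C)
  have hsplit := Finset.sum_filter_add_sum_filter_not T (fun x => Disjoint x.1 x.2)
    (fun x => w y x.1 * w y x.2)
  have hmem : ∀ x : (Σ _ : Finset α, Finset α), x ∈ T ↔
      (2 ≤ x.1.card ∧ cst a x.1) ∧ (2 ≤ x.2.card ∧ cst b x.2 ∧ 5 ≤ x.1.card + x.2.card) := by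
    intro x
    rw [hT, Finset.mem_sigma, hA, hB]
    simp
  have hpart1 : (∑ U ∈ (univ : Finset (Finset α)).filter (fun U => 5 ≤ U.card),
      (spl a b U : ℝ) * w y U) ≤ ∑ x ∈ T.filter (fun x => Disjoint x.1 x.2), w y x.1 * w y x.2 := by
    have h1 : ∀ U : Finset α, (spl a b U : ℝ) * w y U =
        ∑ R ∈ U.powerset.filter (fun R => cst a R ∧ cst b (U \ R) ∧ 2 ≤ R.card ∧ 2 ≤ (U \ R).card),
          w y U := by
      intro U
      rw [Finset.sum_const, nsmul_eq_mul]
      rfl
    rw [Finset.sum_congr rfl (fun U _ => h1 U),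
      Finset.sum_sigma' ((univ : Finset (Finset α)).filter (fun U => 5 ≤ U.card))
        (fun U => U.powerset.filter
          (fun R => cst a R ∧ cst b (U \ R) ∧ 2 ≤ R.card ∧ 2 ≤ (U \ R).card)) (fun U _ => w y U)]
    apply inj_le _ _ _ _ (fun x => (⟨x.2, x.1 \ x.2⟩ : (Σ _ : Finset α, Finset α)))
    · rintro ⟨U, R⟩ hx
      simp only [Finset.mem_sigma, Finset.mem_filter, Finset.mem_univ, true_and,
        Finset.mem_powerset] at hx
      obtain ⟨h5, hRU, h2, h3, h4, h6⟩ := hx
      rw [Finset.mem_filter, hmem]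
      refine ⟨⟨⟨h4, h2⟩, h6, h3, ?_⟩, Finset.disjoint_sdiff⟩
      have := Finset.card_sdiff_add_card_eq_card hRU
      show 5 ≤ R.card + (U \ R).card
      omega
    · rintro ⟨U, R⟩ hx ⟨U', R'⟩ hx' h
      simp only [Finset.mem_sigma, Finset.mem_filter, Finset.mem_univ, true_and,
        Finset.mem_powerset] at hx hx'
      simp only [Sigma.mk.injEq, heq_eq_eq] at h
      obtain ⟨e1, e2⟩ := h
      have e3 : U = U' := by
        rw [← Finset.sdiff_union_of_subset hx.2.1, ← Finset.sdiff_union_of_subset hx'.2.1, e2, e1]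
      rw [e1, e3]
    · rintro ⟨U, R⟩ hx
      simp only [Finset.mem_sigma, Finset.mem_filter, Finset.mem_univ, true_and,
        Finset.mem_powerset] at hx
      show w y U = w y R * w y (U \ R)
      unfold w
      rw [mul_comm, Finset.prod_sdiff hx.2.1]
    · intro x _
      exact mul_nonneg (hw _) (hw _)
  have hpart2 : (∑ S ∈ (univ : Finset (Finset α)).filter (fun S => 4 ≤ S.card),
      w y S * ∑ p ∈ S, y p * (cr a b S p : ℝ)) ≤
      ∑ x ∈ T.filter (fun x => ¬ Disjoint x.1 x.2), w y x.1 * w y x.2 := by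
    have h1 : ∀ S : Finset α, w y S * ∑ p ∈ S, y p * (cr a b S p : ℝ) =
        ∑ p ∈ S.filter (fun p => (∀ u ∈ S, a u = a p ∨ b u = b p) ∧
          (∃ u ∈ S, u ≠ p ∧ a u = a p) ∧ (∃ u ∈ S, u ≠ p ∧ b u = b p)), w y S * y p := by
      intro S
      rw [Finset.mul_sum, Finset.sum_filter]
      apply Finset.sum_congr rfl
      intro p _
      unfold cr
      split_ifs <;> simp
    rw [Finset.sum_congr rfl (fun S _ => h1 S),
      Finset.sum_sigma' ((univ : Finset (Finset α)).filter (fun S => 4 ≤ S.card))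
        (fun S => S.filter (fun p => (∀ u ∈ S, a u = a p ∨ b u = b p) ∧
          (∃ u ∈ S, u ≠ p ∧ a u = a p) ∧ (∃ u ∈ S, u ≠ p ∧ b u = b p))) (fun S p => w y S * y p)]
    have hun : ∀ (S : Finset α) (p : α), p ∈ S → (∀ u ∈ S, a u = a p ∨ b u = b p) →
        S.filter (fun u => a u = a p) ∪ S.filter (fun u => b u = b p) = S := by
      intro S p hp h
      ext u
      simp only [Finset.mem_union, Finset.mem_filter]
      constructor
      · rintro (⟨h1, _⟩ | ⟨h1, _⟩) <;> exact h1
      · intro hu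
        rcases h u hu with h2 | h2
        · exact Or.inl ⟨hu, h2⟩
        · exact Or.inr ⟨hu, h2⟩
    have hin : ∀ (S : Finset α) (p : α), p ∈ S →
        S.filter (fun u => a u = a p) ∩ S.filter (fun u => b u = b p) = {p} := by
      intro S p hp
      ext u
      simp only [Finset.mem_inter, Finset.mem_filter, Finset.mem_singleton]
      constructor
      · rintro ⟨⟨_, h1⟩, ⟨_, h2⟩⟩
        exact hI u p h1 h2
      · rintro rfl
        exact ⟨⟨hp, rfl⟩, ⟨hp, rfl⟩⟩
    apply inj_le _ _ _ _ (fun x => (⟨x.1.filter (fun u => a u = a x.2),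
      x.1.filter (fun u => b u = b x.2)⟩ : (Σ _ : Finset α, Finset α)))
    · rintro ⟨S, p⟩ hx
      simp only [Finset.mem_sigma, Finset.mem_filter, Finset.mem_univ, true_and] at hx
      obtain ⟨h4, hp, h2, ⟨u, hu, hup, hua⟩, ⟨v, hv, hvp, hvb⟩⟩ := hx
      rw [Finset.mem_filter, hmem]
      have e1 := hun S p hp h2
      have e2 := hin S p hp
      have e3 := Finset.card_union_add_card_inter (S.filter (fun u => a u = a p))
        (S.filter (fun u => b u = b p))
      rw [e1, e2, Finset.card_singleton] at e3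
      refine ⟨⟨⟨?_, ?_⟩, ?_, ?_, ?_⟩, ?_⟩
      · show 2 ≤ (S.filter (fun u => a u = a p)).card
        have : 1 < (S.filter (fun u => a u = a p)).card := by
          rw [Finset.one_lt_card]
          exact ⟨u, Finset.mem_filter.2 ⟨hu, hua⟩, p, Finset.mem_filter.2 ⟨hp, rfl⟩, hup⟩
        omega
      · intro s hs t ht
        rw [(Finset.mem_filter.1 hs).2, (Finset.mem_filter.1 ht).2]
      · show 2 ≤ (S.filter (fun u => b u = b p)).card
        have : 1 < (S.filter (fun u => b u = b p)).card := by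
          rw [Finset.one_lt_card]
          exact ⟨v, Finset.mem_filter.2 ⟨hv, hvb⟩, p, Finset.mem_filter.2 ⟨hp, rfl⟩, hvp⟩
        omega
      · intro s hs t ht
        rw [(Finset.mem_filter.1 hs).2, (Finset.mem_filter.1 ht).2]
      · show 5 ≤ (S.filter (fun u => a u = a p)).card + (S.filter (fun u => b u = b p)).card
        omega
      · intro hd
        have := Finset.disjoint_iff_inter_eq_empty.1 hd
        rw [show (S.filter (fun u => a u = a p) ∩ S.filter (fun u => b u = b p)) = {p} from e2] at this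
        exact Finset.singleton_ne_empty p this
    · rintro ⟨S, p⟩ hx ⟨S', p'⟩ hx' h
      simp only [Finset.mem_sigma, Finset.mem_filter, Finset.mem_univ, true_and] at hx hx'
      simp only [Sigma.mk.injEq, heq_eq_eq] at h
      obtain ⟨e1, e2⟩ := h
      have e3 : S = S' := by
        rw [← hun S p hx.2.1 hx.2.2.1, ← hun S' p' hx'.2.1 hx'.2.2.1, e1, e2]
      have e4 : ({p} : Finset α) = {p'} := by
        rw [← hin S p hx.2.1, ← hin S' p' hx'.2.1, e1, e2]
      have e5 : p = p' := Finset.singleton_injective e4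
      rw [e3, e5]
    · rintro ⟨S, p⟩ hx
      simp only [Finset.mem_sigma, Finset.mem_filter, Finset.mem_univ, true_and] at hx
      show w y S * y p = w y (S.filter (fun u => a u = a p)) * w y (S.filter (fun u => b u = b p))
      have e1 := hun S p hx.2.1 hx.2.2.1
      have e2 := hin S p hx.2.1
      unfold w
      rw [← Finset.prod_union_inter, e1, e2, Finset.prod_singleton]
    · intro x _
      exact mul_nonneg (hw _) (hw _)
  show _ ≤ ∑ R ∈ A, ∑ C ∈ B R, w y R * w y C
  rw [hR, ← hsplit]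
  exact add_le_add hpart1 hpart2

end Pool.Agent.W570.SC
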